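import Pool.Agent.Helper88.TA.Goals
import Pool.Agent.Helper88.TU.Size
import Pool.Agent.Helper73.GM.KB

/-! # TA-KC: for most integers there is a set of points at which all primes are avoided -/

set_option autoImplicit false

open Finset Filter Topology

open scoped Classical

namespace Pool.Agent.Helper70.TA

open Pool.Agent.Helper88.PP (pr Rg om Sf SS uu vv ee LA VV QQ cost nc dd)
open Pool.Agent.Helper88.RR (gg ab TB WB nz wb DB Db VM GB)
open Pool.Agent.Helper88.GM (NI XI In)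
open Pool.Agent.Helper88.TU (Su)
open Pool.Agent.Helper88.TA (StmtS3 StmtW4 StmtKC)
open Pool.Agent.Helper73.GM (params sizes up_bound sig_bound V_bound)

/-- the second moment method for squares of weights -/
theorem class_bound4 {N J : Finset ℕ} {W G : ℕ → ℕ → ℝ} {D : ℕ → ℝ} {X K ε : ℝ}
    (hJ : J.Nonempty) (hX : 0 ≤ X) (hε0 : 0 ≤ ε) (hK : 0 ≤ K)
    (hN : (N.card : ℝ) ≤ (1 + ε) * X)
    (hD : ∀ j ∈ J, 1 ≤ D j)
    (hG0 : ∀ j ∈ J, ∀ n ∈ N, 0 ≤ G j n)
    (h1 : ∀ j ∈ J, |∑ n ∈ N, W j n ^ 2 - X * D j| ≤ ε * X)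
    (h2 : ∀ j ∈ J, ∑ n ∈ N, G j n ≤ ε * (X * D j))
    (h3 : ∀ j ∈ J, ∀ k ∈ J, j ≠ k →
      ∑ n ∈ N, W j n ^ 2 * W k n ^ 2 ≤ (1 + ε) * (X * (D j * D k)))
    (h4 : ∀ j ∈ J, ∑ n ∈ N, W j n ^ 4 ≤ K * X)
    (S : Finset ℕ) (hS : S ⊆ N) (hSp : ∀ n ∈ S, ∀ j ∈ J, W j n ^ 2 ≤ G j n) :
    (S.card : ℝ) ≤ (18 * ε + 4 * (2 * K) / J.card) * X := by
  set f : ℕ → ℕ → ℝ := fun j n => W j n ^ 2 / D j with hf
  set g : ℕ → ℕ → ℝ := fun j n => G j n / D j with hg
  have hDpos : ∀ j ∈ J, 0 < D j := fun j hj => lt_of_lt_of_le one_pos (hD j hj)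
  have hsum : ∀ j, ∑ n ∈ N, f j n = (∑ n ∈ N, W j n ^ 2) / D j := fun j => by
    rw [Finset.sum_div]
  have key := Pool.Agent.Helper39.PP.ch N J f g X (2 * K) ε hJ hX hε0 (by positivity)
    ?_ ?_ hN ?_ ?_ ?_ ?_
  · refine le_trans ?_ key
    have hsub : S ⊆ N.filter (fun n => ∀ j ∈ J, f j n ≤ g j n) := by
      intro n hn
      rw [mem_filter]
      refine ⟨hS hn, fun j hj => ?_⟩
      exact div_le_div_of_nonneg_right (hSp n hn j hj) (hDpos j hj).le
    exact_mod_cast Finset.card_le_card hsub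
  · intro j hj n _
    exact div_nonneg (sq_nonneg _) (hDpos j hj).le
  · intro j hj n hn
    exact div_nonneg (hG0 j hj n hn) (hDpos j hj).le
  · intro j hj
    have h5 := (abs_le.1 (h1 j hj)).1
    have h6 : 1 ≤ D j := hD j hj
    rw [hsum, le_div_iff₀ (hDpos j hj)]
    have h8 : ε * X ≤ ε * X * D j := le_mul_of_one_le_right (by positivity) h6
    linarith
  · intro j hj
    have h7 : ∑ n ∈ N, g j n = (∑ n ∈ N, G j n) / D j := by
      rw [Finset.sum_div]
    rw [h7, div_le_iff₀ (hDpos j hj)]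
    have := h2 j hj
    linarith
  · intro j hj
    have h6 : 1 ≤ D j := hD j hj
    have hDj := hDpos j hj
    have h7 : ∑ n ∈ N, f j n ^ 2 ≤ ∑ n ∈ N, W j n ^ 4 := by
      apply Finset.sum_le_sum
      intro n hn
      rw [hf]
      simp only
      have h8 : (W j n ^ 2) ^ 2 = W j n ^ 4 := by ring
      rw [div_pow, h8]
      exact div_le_self (by positivity) (one_le_pow₀ h6)
    refine h7.trans ((h4 j hj).trans ?_)
    have : 0 ≤ K * X := by positivity
    linarith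
  · intro j hj k hk hjk
    have hDj := hDpos j hj
    have hDk := hDpos k hk
    have h7 : ∑ n ∈ N, f j n * f k n =
        (∑ n ∈ N, W j n ^ 2 * W k n ^ 2) / (D j * D k) := by
      rw [Finset.sum_div]
      apply Finset.sum_congr rfl
      intro n _
      rw [hf]
      simp only
      rw [div_mul_div_comm]
    rw [h7, div_le_iff₀ (by positivity)]
    have := h3 j hj k hk hjk
    linarith

/-- the number of integers -/
theorem card_bound {ct : ℝ} {E z y u v Q b : ℕ} (hz : 2 ≤ z)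
    (h : ∀ B : Finset ℕ, B ⊆ Icc 1 y → B.card ^ 2 ≤ E →
      ∀ d : ℕ → ℕ, (∀ i ∈ B, Sf z (d i)) → ∏ i ∈ B, d i ≤ z ^ (E / 4) →
      ((∀ i ∈ B, ∀ j ∈ B, i ≠ j → Nat.Coprime (d i) (d j)) →
    |(((NI u v Q b).filter (fun n => ∀ i ∈ B, d i ∣ n + i ∧ Rg y z (n + i))).card : ℝ)
      - XI u v Q * (gg y z B.card * ∏ i ∈ B, (1 / (d i : ℝ)))|
      ≤ Real.exp (-(ct * E)) * (XI u v Q * (gg y z B.card * ∏ i ∈ B, (1 / (d i : ℝ)))))) :
    ((NI u v Q b).card : ℝ) ≤ (1 + Real.exp (-(ct * E))) * XI u v Q := by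
  have h1 := h ∅ (by simp) (by simp) (fun _ => 1) (by simp) (by
    simp only [Finset.prod_empty]
    exact Nat.one_le_pow _ _ (by omega)) (by simp)
  have hg : gg y z (∅ : Finset ℕ).card = 1 := by
    unfold gg
    apply Finset.prod_eq_one
    intro p _
    simp
  rw [hg] at h1
  simp only [Finset.prod_empty, mul_one] at h1
  have h2 : (NI u v Q b).filter (fun n => ∀ i ∈ (∅ : Finset ℕ), 1 ∣ n + i ∧ Rg y z (n + i)) =
      NI u v Q b := by
    apply Finset.filter_true_of_mem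
    intro n _ i hi
    simp at hi
  rw [h2] at h1
  have h3 := (abs_le.1 h1).2
  linarith

theorem kc (h1 : Pool.Agent.Helper88.TU.StmtS1) (h2 : Pool.Agent.Helper88.TU.StmtGT)
    (h5 : Pool.Agent.Helper88.TU.StmtTL) (h3 : StmtS3) (h4 : StmtW4) : StmtKC := by
  obtain ⟨c1, hc1, hVL⟩ := Pool.Agent.Helper88.RR.vl
  obtain ⟨cS, hcS, ES, hS1⟩ := h1
  obtain ⟨cG, hcG, EG, hGT⟩ := h2
  obtain ⟨EU, hSU⟩ := h4
  obtain ⟨EZ, hsize⟩ := Pool.Agent.Helper88.TU.size
  obtain ⟨cT, hcT, ET, hTL⟩ := h5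
  obtain ⟨E1, hE1⟩ := params
  set c : ℝ := min 1 (c1 / 2000) with hc
  have hc0 : 0 < c := lt_min one_pos (by positivity)
  have hcl : c ≤ c1 / 2000 := min_le_right _ _
  have hcone : c ≤ 1 := min_le_left _ _
  clear_value c
  refine ⟨c, hc0, fun ε hε => ?_⟩
  set ε' : ℝ := min 1 (ε / 40) with hε'
  have hε'0 : 0 < ε' := lt_min one_pos (by positivity)
  have hε'1 : ε' ≤ 1 := min_le_left _ _
  have hε'2 : ε' ≤ ε / 40 := min_le_right _ _
  clear_value ε'
  obtain ⟨E3, hS3⟩ := h3 ε' hε'0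
  obtain ⟨E2, hE2⟩ := sizes c cS cG cT (ε' / 2) hc0.le hcS hcG hcT (by positivity)
  obtain ⟨L3, hL3⟩ := exists_nat_gt (max 100 (32 / c1))
  refine ⟨ES + EG + EU + ET + E1 + E2 + E3 + EZ + 2 ^ L3 + 300, ?_⟩
  intro E z x y hE hSu u v Q b hIn J P hJc hP hJd hPo
  have hp2 : 0 < 2 ^ L3 := by positivity
  have hES : ES ≤ E := by omega
  have hEG : EG ≤ E := by omega
  have hEU : EU ≤ E := by omega
  have hET : ET ≤ E := by omega
  have hEE1 : E1 ≤ E := by omega
  have hEE2 : E2 ≤ E := by omega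
  have hEE3 : E3 ≤ E := by omega
  have hEL3 : 2 ^ L3 ≤ E := by omega
  have hEZ : EZ ≤ E := by omega
  have hE300 : 300 ≤ E := by omega
  clear hE
  obtain ⟨m, hm1, hqm, hjqm, hK2⟩ := hE1 E hEE1
  obtain ⟨s1, s2, s3, s4, s5, s6, s7⟩ := hE2 E hEE2
  set L := Nat.log 2 E with hL
  have hE0 : E ≠ 0 := by clear hqm hjqm hK2; omega
  have hEr : (300 : ℝ) ≤ E := by exact_mod_cast hE300
  have hEpos : (0 : ℝ) < E := by linarith
  have hLL : L3 ≤ L := Nat.le_log_of_pow_le (by norm_num) hEL3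
  obtain ⟨hz1, hzE, hx2, hy1, hy2⟩ := id hSu
  have hz2 : 2 ≤ z := by
    have h1 : (2 : ℝ) ≤ z := by
      have := Real.add_one_le_exp (E : ℝ)
      linarith
    exact_mod_cast h1
  obtain ⟨hV1, hVlog⟩ := V_bound hc1 hm1 hz2 hE300 hL hLL hL3 hVL
  set q := 2 ^ (L / 4) with hq
  have hV0 : VV z m (q * m) ≠ 0 := by linarith
  have hK : (E / 16 / m + 1) ^ 3 ≤ E := by
    refine le_trans (Nat.pow_le_pow_left ?_ 3) hK2
    exact Nat.le_mul_of_pos_left _ (by norm_num)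
  have hom := Pool.Agent.Helper88.RR.om_nonneg y z
  have hX : 0 ≤ XI u v Q := div_nonneg (Nat.cast_nonneg _) (Nat.cast_nonneg _)
  -- the number of points
  have hcard : ∀ t ∈ J, (P t).card ≤ y := by
    intro t ht
    have := Finset.card_le_card (hP t ht)
    rw [Nat.card_Icc] at this
    clear hqm hjqm hK2 hK hzE hx2
    omega
  have hPhalf : ∀ t ∈ J, ((P t).card : ℝ) * om y z ≤ (E : ℝ) ^ 2 / 2 := by
    intro t ht
    refine (hPo t ht).trans ?_
    have h1 : 2 * Real.log E ≤ E := by linarith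
    calc c * (E * Real.log E) ≤ 1 * (E * (E / 2)) := by
          apply mul_le_mul hcone _ (by positivity) (by norm_num)
          exact mul_le_mul_of_nonneg_left (by linarith) hEpos.le
      _ = (E : ℝ) ^ 2 / 2 := by ring
  have hPo2 : ∀ t ∈ J, ((P t).card : ℝ) * om y z ≤ (E : ℝ) ^ 2 := by
    intro t ht
    refine (hPhalf t ht).trans ?_
    have : (0 : ℝ) ≤ (E : ℝ) ^ 2 := by positivity
    linarith
  have hM2 : 2 ≤ E / 16 := by clear hqm hjqm hK2 hK hzE hx2; omega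
  -- the nonempty set of windows
  have hJpos : (0 : ℝ) < J.card := lt_of_lt_of_le (Real.exp_pos _) hJc
  have hJne : J.Nonempty := by
    rw [← Finset.card_pos]
    exact_mod_cast hJpos
  have key := class_bound4 (N := NI u v Q b) (J := J)
    (W := fun t n => WB m q (E / 16) z y (P t) n)
    (G := fun t n => ∑ h : P t, GB m q (E / 16) z y (P t) h n ^ 2)
    (D := fun t => DB m q (E / 16) z y (P t)) (X := XI u v Q)
    (K := Real.exp ((E : ℝ) ^ 2 / 2)) (ε := ε') hJne hX hε'0.le (Real.exp_pos _).le ?_ ?_ ?_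
    ?_ ?_ ?_ ?_ ((NI u v Q b).filter
      (fun n => z ^ (E / 16) ≤ n ∧ ∀ t ∈ J, ∃ h ∈ P t, (n + h).Prime))
    (Finset.filter_subset _ _) ?_
  · refine key.trans (mul_le_mul_of_nonneg_right ?_ hX)
    have h6 : 4 * (2 * Real.exp ((E : ℝ) ^ 2 / 2)) / J.card ≤ 8 * Real.exp (-((E : ℝ) ^ 2 / 2)) := by
      rw [div_le_iff₀ hJpos]
      calc 4 * (2 * Real.exp ((E : ℝ) ^ 2 / 2))
          = 8 * (Real.exp (-((E : ℝ) ^ 2 / 2)) * Real.exp ((E : ℝ) ^ 2)) := by
            rw [← Real.exp_add]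
            rw [show -((E : ℝ) ^ 2 / 2) + (E : ℝ) ^ 2 = (E : ℝ) ^ 2 / 2 by ring]
            ring
        _ ≤ 8 * (Real.exp (-((E : ℝ) ^ 2 / 2)) * J.card) := by
            have := mul_le_mul_of_nonneg_left hJc (Real.exp_pos (-((E : ℝ) ^ 2 / 2))).le
            linarith
        _ = 8 * Real.exp (-((E : ℝ) ^ 2 / 2)) * J.card := by ring
    linarith
  · refine (card_bound hz2 (fun B hB1 hB2 d hd1 hd2 hd3 =>
      ((hTL E z x y hET hSu u v Q b hIn B hB1 hB2 d hd1 hd2).1 hd3).1)).trans ?_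
    exact mul_le_mul_of_nonneg_right (by linarith) hX
  · intro t ht
    exact (hS1 E z x y hES hSu u v Q b hIn m q hm1 hqm hV1 hK (P t) (hP t ht)
      (hPo2 t ht)).1
  · intro t ht n hn
    exact Finset.sum_nonneg fun h _ => sq_nonneg _
  · intro t ht
    refine (hS1 E z x y hES hSu u v Q b hIn m q hm1 hqm hV1 hK (P t) (hP t ht)
      (hPo2 t ht)).2.trans ?_
    exact mul_le_mul_of_nonneg_right (by linarith) hX
  · intro t ht
    have hD1 := (hS1 E z x y hES hSu u v Q b hIn m q hm1 hqm hV1 hK (P t) (hP t ht)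
      (hPo2 t ht)).1
    have hG := hGT E z x y hEG hSu u v Q b hIn m q hm1 hqm hV1 hK (P t) (hP t ht)
      (hPo2 t ht)
    have hSig := sig_bound hcl hc1 hE300 hL (hcard t ht) s1 hVlog hV1 hjqm hD1 (hPo t ht)
    rw [Finset.sum_comm]
    refine (Finset.sum_le_sum fun h _ => hG h).trans ?_
    rw [Finset.sum_const, nsmul_eq_mul, Finset.card_univ, Fintype.card_coe]
    exact up_bound hX hD1 hom (Real.exp_pos _).le hSig (hPo t ht) s3 s4
  · intro t ht t' ht' htt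
    refine hS3 E z x y hEE3 hSu u v Q b hIn m q hm1 hqm hV1 hK2 (P t) (P t') (hP t ht)
      (hP t' ht') (hJd t ht t' ht' htt) ?_
    rw [add_mul]
    have h6 := hPhalf t ht
    have h7 := hPhalf t' ht'
    linarith
  · intro t ht
    exact hSU E z x y hEU hSu u v Q b hIn m q hm1 hqm hV1 hK (P t) (hP t ht) (hPo2 t ht)
  · intro n hn t ht
    obtain ⟨hn1, hzn, hn2⟩ := Finset.mem_filter.1 hn
    refine le_trans ?_ (Pool.Agent.Helper88.RR.point Pool.Agent.Helper59.RR.pw m q (E / 16) z y n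
      (P t) hM2 hm1 hz2 hV0 hqm hzn)
    obtain ⟨h, hh, hpr⟩ := hn2 t ht
    have h6 : 1 ≤ ((P t).filter (fun h => (n + h).Prime)).card :=
      Finset.card_pos.2 ⟨h, Finset.mem_filter.2 ⟨hh, hpr⟩⟩
    have h7 : (1 : ℝ) ≤ (((P t).filter (fun h => (n + h).Prime)).card : ℝ) := by exact_mod_cast h6
    exact le_mul_of_one_le_right (sq_nonneg _) h7

end Pool.Agent.Helper70.TA
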